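import Pool.Agent.Lib.MP_1c8e06_ag.CYH.HDefs

set_option autoImplicit false

open Polynomial LaurentPolynomial
open scoped Classical

namespace Pool.Agent.MP_1c8e06_ag.CYH

open Pool.Agent.MP_1c8e06_ag.AJ Pool.Agent.MP_1c8e06_ag.CY

noncomputable section

/-!
# Task H11: base change of the two point cover

`TPw`, `TPw.Conn`, `lz`, `lzi`, `mapT` in `CY/Defs.lean`.  `φ : K → Ω`, `S' := D.S.map Φ`, `Φ := mapT φ : K[T;T⁻¹] → Ω[T;T⁻¹]` on coefficients.  `mapE := AI.mapE p φ F` composed with the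
equality `F.map φ = C (φ t) * X` (use `AS`-type lift: `of a ↦ ofL (AI.mapL φ a)`, `yy ↦ yy` directly: define
`mE : EE p (C t * X) → EE p (C (φ t) * X)` by `AdjoinRoot.lift`).  `r0' := Al.lift S' (ofL ∘ lz Ω) (fun l => mE (D.r0 (e l)))`.
`Conn`: let `f : Al S'`, `c : G → Ω` with `r0' (act g f) = ofL (C (c g))`.  The coefficients of the coordinates of `f`
and the `c g` are finitely many elements of `Ω`; let `V` be their `K`-span (`Ω` is a `K`-algebra by `φ`), choose a basis
`a_1, ..., a_n` of `V`; so `f l = ∑ i, C (a_i) * Φ (f_i l)`, `c g = ∑ i, a_i * φ (c_i g)`.  `r0' (act g f) = ∑ i, ofL (C (a_i)) * mE (r0 (act g f_i))`.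
In coordinates with respect to `1, yy, ..., yy^(p-1)` and in each coefficient: `∑ i, a_i * φ (coefficient of r0 (act g f_i) - ofL (C (c_i g))) = 0`, so
all these coefficients are `0` (linear independence), `r0 (act g f_i) = ofL (C (c_i g))`, and `c_i` is constant by `Conn`.
-/


section
variable {K Ω : Type} [Field K] [Field Ω] (φ : K →+* Ω)

theorem H11_mapT_C (c : K) : mapT φ (LaurentPolynomial.C c) = LaurentPolynomial.C (φ c) := by
  rw [mapT, LaurentPolynomial.eval₂_C]
  rfl

theorem H11_mapT_T (n : ℤ) : mapT φ (LaurentPolynomial.T n) = LaurentPolynomial.T n := by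
  rw [mapT, LaurentPolynomial.eval₂_T]
  set u : (Lam Ω)ˣ := ⟨LaurentPolynomial.T 1, LaurentPolynomial.T (-1), by
      rw [← LaurentPolynomial.T_add, add_neg_cancel, LaurentPolynomial.T_zero], by
      rw [← LaurentPolynomial.T_add, neg_add_cancel, LaurentPolynomial.T_zero]⟩ with hu
  have h : ∀ m : ℕ, ((u ^ m : (Lam Ω)ˣ) : Lam Ω) = LaurentPolynomial.T (m : ℤ) := by
    intro m
    rw [Units.val_pow_eq_pow_val]
    change (LaurentPolynomial.T 1 : Lam Ω) ^ m = _
    rw [LaurentPolynomial.T_pow, mul_one]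
  have h' : ∀ m : ℕ, ((u⁻¹ ^ m : (Lam Ω)ˣ) : Lam Ω) = LaurentPolynomial.T (-(m : ℤ)) := by
    intro m
    rw [Units.val_pow_eq_pow_val]
    change (LaurentPolynomial.T (-1) : Lam Ω) ^ m = _
    rw [LaurentPolynomial.T_pow, mul_neg, mul_one]
  obtain ⟨m, rfl | rfl⟩ := n.eq_nat_or_neg
  · rw [zpow_natCast, h]
  · rw [zpow_neg, zpow_natCast, ← inv_pow, h']

theorem H11_mapL_C (c : K) : AI.mapL φ (HahnSeries.C c) = HahnSeries.C (φ c) := by
  ext n
  rw [AI.mapL_coeff, HahnSeries.C_apply, HahnSeries.C_apply, HahnSeries.coeff_single,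
    HahnSeries.coeff_single]
  split_ifs <;> simp

theorem H11_mapL_single (n : ℤ) : AI.mapL φ (HahnSeries.single n (1 : K)) =
    HahnSeries.single n (1 : Ω) := by
  ext m
  rw [AI.mapL_coeff, HahnSeries.coeff_single, HahnSeries.coeff_single]
  split_ifs <;> simp

theorem H11_lz (f : Lam K) : lz Ω (mapT φ f) = AI.mapL φ (lz K f) := by
  induction f using LaurentPolynomial.induction_on' with
  | add f g hf hg => rw [map_add, map_add, map_add, map_add, hf, hg]
  | C_mul_T m c =>
    rw [map_mul, map_mul, map_mul, map_mul, H11_mapT_C, H11_mapT_T, lz_C, lz_T, lz_C, lz_T,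
      H11_mapL_C, H11_mapL_single]

theorem H11_lzi (f : Lam K) : lzi Ω (mapT φ f) = AI.mapL φ (lzi K f) := by
  induction f using LaurentPolynomial.induction_on' with
  | add f g hf hg => rw [map_add, map_add, map_add, map_add, hf, hg]
  | C_mul_T m c =>
    rw [map_mul, map_mul, map_mul, map_mul, H11_mapT_C, H11_mapT_T, lzi_C, lzi_T, lzi_C, lzi_T,
      H11_mapL_C, H11_mapL_single]

/-- The map on the Artin-Schreier algebras. -/
theorem H11_mE {p : ℕ} [hp : Fact p.Prime] [CharP K p] [CharP Ω p] (F : K[X]) (F' : Polynomial Ω)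
    (hF : F' = F.map φ) : ∃ m : AI.EE p F →+* AI.EE p F',
      (∀ a, m (AI.ofL p F a) = AI.ofL p F' (AI.mapL φ a)) ∧
      (∀ a, m (AI.tau p F a) = AI.tau p F' (m a)) ∧
      ∀ a j, AI.coordE p F' (m a) j = AI.mapL φ (AI.coordE p F a j) := by
  subst hF
  exact ⟨AI.mapE p φ F, AI.mapE_ofL φ, AI.mapE_tau φ, AI.coordE_mapE φ⟩

/-- One of the two maps `r0`, `r1` after base change. -/
theorem H11_r {p : ℕ} [hp : Fact p.Prime] [CharP K p] [CharP Ω p] {G : Type} [Group G]
    [Fintype G] (x : G) (F : K[X]) (F' : Polynomial Ω)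
    (m : AI.EE p F →+* AI.EE p F')
    (h1 : ∀ a, m (AI.ofL p F a) = AI.ofL p F' (AI.mapL φ a))
    (h2 : ∀ a, m (AI.tau p F a) = AI.tau p F' (m a)) (S : SC (Lam K) G)
    (l : Lam K →+* LaurentSeries K) (l' : Lam Ω →+* LaurentSeries Ω)
    (hl : ∀ f, l' (mapT φ f) = AI.mapL φ (l f))
    (r : Al S →+* AI.EE p F) (hr : ∀ f, r (Al.cst S f) = AI.ofL p F (l f))
    (hx : ∀ a, r (Al.act S x a) = AI.tau p F (r a)) :
    ∃ r' : Al (S.map (mapT φ)) →+* AI.EE p F',
      (∀ f, r' (Al.cst _ f) = AI.ofL p F' (l' f)) ∧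
      (∀ a, r' (Al.act _ x a) = AI.tau p F' (r' a)) ∧
      ∀ a, r' (Al.mapA S (mapT φ) a) = m (r a) := by
  have e1 : ∀ i j, m (r (Al.e S i)) * m (r (Al.e S j)) =
      ∑ k, ((AI.ofL p F').comp l') ((S.map (mapT φ)).μ i j k) * m (r (Al.e S k)) := by
    intro i j
    rw [← map_mul, ← map_mul, Al.e_mul_e, map_sum, map_sum]
    refine Finset.sum_congr rfl fun k _ => ?_
    rw [map_mul, map_mul, hr, h1, ← hl]
    rfl
  have e2 : ∑ k, ((AI.ofL p F').comp l') ((S.map (mapT φ)).ν k) * m (r (Al.e S k)) = 1 := by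
    have h3 : m (r 1) = 1 := by rw [map_one, map_one]
    rw [Al.one_eq_sum, map_sum, map_sum] at h3
    rw [← h3]
    refine Finset.sum_congr rfl fun k _ => ?_
    rw [map_mul, map_mul, hr, h1, ← hl]
    rfl
  set r' := Al.lift (S.map (mapT φ)) ((AI.ofL p F').comp l') (fun k => m (r (Al.e S k))) e1 e2
    with hr'
  have c1 : ∀ f, r' (Al.cst _ f) = AI.ofL p F' (l' f) := fun f => Al.lift_cst _ _ _ _ _ f
  have c2 : ∀ k, r' (Al.e _ k) = m (r (Al.e S k)) := fun k => Al.lift_e _ _ _ _ _ k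
  have c3 : r'.comp (Al.mapA S (mapT φ)) = m.comp r := by
    refine Al.hom_ext _ ?_ ?_
    · intro b
      rw [RingHom.comp_apply, RingHom.comp_apply, Al.mapA_cst, c1, hr, h1, hl]
    · intro k
      rw [RingHom.comp_apply, RingHom.comp_apply, Al.mapA_e, c2]
  have c4 : ∀ a, r' (Al.mapA S (mapT φ) a) = m (r a) := fun a => RingHom.congr_fun c3 a
  refine ⟨r', c1, ?_, c4⟩
  have c5 : r'.comp (Al.act (S.map (mapT φ)) x) = (AI.tau p F').comp r' := by
    refine Al.hom_ext _ ?_ ?_
    · intro b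
      rw [RingHom.comp_apply, RingHom.comp_apply, Al.act_cst, c1, AI.tau_ofL]
    · intro k
      rw [RingHom.comp_apply, RingHom.comp_apply, ← Al.mapA_e, ← Al.mapA_act, c4, c4, hx, h2]
  exact fun a => RingHom.congr_fun c5 a

/-- The coordinates of Laurent polynomials over `Ω` with respect to a basis of `Ω` over `K`. -/
theorem H11_coord [Algebra K Ω] (hφ : algebraMap K Ω = φ) {ι : Type} (B : Module.Basis ι K Ω)
    (q : Lam Ω) : ∃ q' : ι →₀ Lam K, q = q'.sum fun i a => LaurentPolynomial.C (B i) * mapT φ a := by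
  induction q using LaurentPolynomial.induction_on' with
  | add f g hf hg =>
    obtain ⟨f', hf⟩ := hf
    obtain ⟨g', hg⟩ := hg
    refine ⟨f' + g', ?_⟩
    rw [Finsupp.sum_add_index', ← hf, ← hg]
    · intro i
      rw [map_zero, mul_zero]
    · intro i a b
      rw [map_add, mul_add]
  | C_mul_T m c =>
    refine ⟨(B.repr c).mapRange (fun k => LaurentPolynomial.C k * LaurentPolynomial.T m)
      (by rw [map_zero, zero_mul]), ?_⟩
    rw [Finsupp.sum_mapRange_index (fun i => by rw [map_zero, mul_zero])]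
    have h : c = (B.repr c).sum fun i a => a • B i := (B.linearCombination_repr c).symm
    conv_lhs => rw [h]
    rw [Finsupp.sum, Finsupp.sum, map_sum, Finset.sum_mul]
    refine Finset.sum_congr rfl fun i _ => ?_
    rw [map_mul, H11_mapT_C, H11_mapT_T, Algebra.smul_def, map_mul, hφ]
    ring

end

theorem TPw.base_change {p : ℕ} [hp : Fact p.Prime] {K Ω : Type} [Field K] [CharP K p] [Field Ω]
    [CharP Ω p] (φ : K →+* Ω) {G : Type} [Group G] [Fintype G] {x : G} {t : K}
    (D : TPw p x t) (hD : D.Conn) :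
    ∃ D' : TPw p (K := Ω) x (φ t), D'.Conn ∧ D'.S = D.S.map (mapT φ) := by
  obtain ⟨m, m1, m2, m3⟩ := H11_mE φ (p := p) (Polynomial.C t * Polynomial.X)
    (Polynomial.C (φ t) * Polynomial.X) (by rw [Polynomial.map_mul, Polynomial.map_C,
      Polynomial.map_X])
  obtain ⟨r0, a1, a2, a3⟩ := H11_r φ x _ _ m m1 m2 D.S (lz K) (lz Ω) (H11_lz φ) D.r0 D.r0_cst
    D.r0_x
  obtain ⟨r1, b1, b2, _⟩ := H11_r φ x _ _ m m1 m2 D.S (lzi K) (lzi Ω) (H11_lzi φ) D.r1 D.r1_cst
    D.r1_x
  refine ⟨⟨D.S.map (mapT φ), r0, r1, a1, b1, a2, b2⟩, ?_, rfl⟩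
  intro f c hf
  change Al (D.S.map (mapT φ)) at f
  change ∀ g, r0 (Al.act (D.S.map (mapT φ)) g f) = _ at hf
  letI : Algebra K Ω := φ.toAlgebra
  have hφ : algebraMap K Ω = φ := rfl
  let B := Module.Basis.ofVectorSpace K Ω
  choose q hq using fun l => H11_coord φ hφ B (f l)
  let s : Finset (Module.Basis.ofVectorSpaceIndex K Ω) :=
    (Finset.univ.biUnion fun l => (q l).support) ∪
      Finset.univ.biUnion fun g => (B.repr (c g)).support
  have hs1 : ∀ l, (q l).support ⊆ s := fun l =>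
    (Finset.subset_biUnion_of_mem (fun l => (q l).support) (Finset.mem_univ l)).trans
      Finset.subset_union_left
  have hs2 : ∀ g, (B.repr (c g)).support ⊆ s := fun g =>
    (Finset.subset_biUnion_of_mem (fun g => (B.repr (c g)).support) (Finset.mem_univ g)).trans
      Finset.subset_union_right
  let fi : Module.Basis.ofVectorSpaceIndex K Ω → Al D.S := fun i => fun l => q l i
  have hf1 : f = ∑ i ∈ s, Al.cst (D.S.map (mapT φ)) (LaurentPolynomial.C (B i)) *
      Al.mapA D.S (mapT φ) (fi i) := by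
    refine Al.ext fun l => ?_
    rw [Al.sum_apply, hq l, Finsupp.sum_of_support_subset _ (hs1 l) _
      (fun i _ => by rw [map_zero, mul_zero])]
    refine Finset.sum_congr rfl fun i _ => ?_
    rw [Al.cst_mul, Al.mapA_apply]
  have hc1 : ∀ g, (HahnSeries.C (c g) : LaurentSeries Ω) =
      ∑ i ∈ s, HahnSeries.C (B i) * AI.mapL φ (HahnSeries.C (B.repr (c g) i)) := by
    intro g
    have h : c g = ∑ i ∈ s, B.repr (c g) i • B i := by
      conv_lhs => rw [← B.linearCombination_repr (c g), Finsupp.linearCombination_apply,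
        Finsupp.sum_of_support_subset _ (hs2 g) _ (fun i _ => by rw [zero_smul])]
    conv_lhs => rw [h]
    rw [map_sum]
    refine Finset.sum_congr rfl fun i _ => ?_
    rw [H11_mapL_C, ← map_mul, Algebra.smul_def, hφ, mul_comm]
  have hz : ∀ g, ∀ i ∈ s, D.r0 (Al.act D.S g (fi i)) =
      AI.ofL p (Polynomial.C t * Polynomial.X) (HahnSeries.C (B.repr (c g) i)) := by
    intro g
    have h1 := hf g
    rw [hf1, map_sum, map_sum, hc1, map_sum, ← sub_eq_zero, ← Finset.sum_sub_distrib] at h1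
    have h2 : ∀ i, r0 (Al.act (D.S.map (mapT φ)) g (Al.cst (D.S.map (mapT φ))
        (LaurentPolynomial.C (B i)) * Al.mapA D.S (mapT φ) (fi i))) -
        AI.ofL p (Polynomial.C (φ t) * Polynomial.X) (HahnSeries.C (B i) *
          AI.mapL φ (HahnSeries.C (B.repr (c g) i))) =
        AI.ofL p (Polynomial.C (φ t) * Polynomial.X) (HahnSeries.C (B i)) *
          m (D.r0 (Al.act D.S g (fi i)) - AI.ofL p (Polynomial.C t * Polynomial.X)
            (HahnSeries.C (B.repr (c g) i))) := by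
      intro i
      rw [map_mul, Al.act_cst, ← Al.mapA_act, map_mul, a1, a3, lz_C, map_mul, ← m1, map_sub,
        mul_sub]
    rw [Finset.sum_congr rfl fun i _ => h2 i] at h1
    have h3 : ∀ (j : ℕ) (n : ℤ), ∀ i ∈ s, (AI.coordE p (Polynomial.C t * Polynomial.X)
        (D.r0 (Al.act D.S g (fi i)) - AI.ofL p (Polynomial.C t * Polynomial.X)
            (HahnSeries.C (B.repr (c g) i))) j).coeff n = 0 := by
      intro j n
      have h4 := congrArg (fun z => (AI.coordE p (Polynomial.C (φ t) * Polynomial.X) z j).coeff n) h1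
      simp only [AI.coordE_sum, AI.coordE_ofL_mul, m3, AI.coordE_zero, HahnSeries.coeff_sum,
        HahnSeries.coeff_zero] at h4
      refine linearIndependent_iff'.1 B.linearIndependent s _ ?_
      rw [← h4]
      refine Finset.sum_congr rfl fun i _ => ?_
      rw [HahnSeries.C_mul_eq_smul, HahnSeries.coeff_smul, smul_eq_mul, AI.mapL_coeff,
        Algebra.smul_def, hφ, mul_comm]
    intro i hi
    rw [← sub_eq_zero]
    refine AI.extE fun j _ => ?_
    rw [AI.coordE_zero]
    ext n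
    rw [h3 j n i hi, HahnSeries.coeff_zero]
  intro g
  apply B.repr.injective
  ext i
  by_cases hi : i ∈ s
  · exact hD (fi i) (fun g => B.repr (c g) i) (fun g => hz g i hi) g
  · have h0 : ∀ g, B.repr (c g) i = 0 := fun g =>
      Finsupp.notMem_support_iff.1 fun h => hi (hs2 g h)
    rw [h0, h0]

end

end Pool.Agent.MP_1c8e06_ag.CYH
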