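import Pool.Agent.Lib.MP_1c8e06_ag.CYH.HDefs3

set_option autoImplicit false

open Polynomial LaurentPolynomial
open scoped Classical

namespace Pool.Agent.MP_1c8e06_ag.CYH

open Pool.Agent.MP_1c8e06_ag.AJ Pool.Agent.MP_1c8e06_ag.CY

noncomputable section

/-!
# Task H6: the algebra over `κ((t))[T, T⁻¹]`

`D0` := `exists_GDx x` with `B = A0 κ`, `A = AA κ`, `ze = (A0 κ).subtype`, `f = f0A κ`, `w = neg κ D.w`
(`(neg w) ^ p - neg w = f0`: apply `neg` to `hw`, `neg_tX`), changed by `GD.exists_chb` with the matrices `X.map posA`, `Xi.map posA`.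
`D1` := `exists_GDx y` with `B = A1 κ`, `w = pos κ D.w`, `pos_tX`, changed by `Z.map negA`.
Both have the same basis functions with values in `AA κ` (`PD.eq`).  Push both to `B = AA κ` (`GD.push` with `φ = subtype`, `ψ = id`,
`ze' = RingHom.id`): `GD.uniq` gives that the structure constants are equal in `AA κ`; so every one of them is in `A0` and in
`A1`, hence `iK` of something (`inter`).  Choose these elements: `k`.  The relations of `D` hold because those of `D0` do.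
-/

private theorem Ks_ext {B G : Type} {k k' : Ks B G} (h1 : ∀ i j l, k.μ i j l = k'.μ i j l)
    (h2 : ∀ i j l, k.α i j l = k'.α i j l) (h3 : ∀ i, k.ν i = k'.ν i)
    (h4 : ∀ i j, k.T i j = k'.T i j) (h5 : ∀ i j, k.T' i j = k'.T' i j) : k = k' := by
  obtain ⟨μ, α, ν, T, T'⟩ := k
  obtain ⟨μ', α', ν', S, S'⟩ := k'
  have e1 : μ = μ' := funext fun i => funext fun j => funext fun l => h1 i j l
  have e2 : α = α' := funext fun i => funext fun j => funext fun l => h2 i j l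
  have e3 : ν = ν' := funext fun i => h3 i
  have e4 : T = S := funext fun i => funext fun j => h4 i j
  have e5 : T' = S' := funext fun i => funext fun j => h5 i j
  subst e1 e2 e3 e4 e5
  rfl

/-- The inverse of `iK`. -/
private def inv (κ : Type) [Field κ] (a : AA κ) : LaurentPolynomial (LaurentSeries κ) :=
  if h : ∃ f, iK κ f = a then h.choose else 0

private theorem iK_inv {κ : Type} [Field κ] {a b : AA κ} (h0 : a ∈ A0 κ) (h1 : b ∈ A1 κ)
    (h : a = b) : iK κ (inv κ a) = a := by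
  have h2 : ∃ f, iK κ f = a := inter a h0 (h ▸ h1)
  unfold inv
  rw [dif_pos h2]
  exact h2.choose_spec

private theorem map_mul_one {A B : Type} [CommRing A] [CommRing B] {G : Type} [Fintype G]
    (φ : A →+* B) {X Y : Matrix G G A} (h : X * Y = 1) : X.map φ * Y.map φ = 1 := by
  rw [← Matrix.map_mul, h]
  exact Matrix.map_one φ (map_zero φ) (map_one φ)

theorem exists_D {p : ℕ} [hp : Fact p.Prime] {κ : Type} [Field κ] [CharP κ p] {G : Type}
    [Group G] [Fintype G] {x y : G} (hx : orderOf x = p) (hy : orderOf y = p)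
    (E : PD p κ G x y) :
    ∃ D : GD (1 : Unit →* G) (iK κ) (1 : Unit →* (AA κ →+* AA κ)),
      (∀ l g, D.b l g = ∑ m, pos κ (E.X l m) * bb p x (neg κ E.w) m g) ∧
      (∀ l g, D.b l g = ∑ m, neg κ (E.Z l m) * bb p y (pos κ E.w) m g) ∧
      D.k.map (iA0 κ) = (kx p x hx (f0A κ)).chb (E.X.map (posA κ)) (E.Xi.map (posA κ)) ∧
      D.k.map (iA1 κ) = (kx p y hy (f1A κ)).chb (E.Z.map (negA κ)) (E.Zi.map (negA κ)) := by
  have h0 : (p : AA κ) = 0 := by
    have h1 := map_natCast ((HahnSeries.C : LaurentPolynomial κ →+* AA κ).comp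
      (LaurentPolynomial.C : κ →+* LaurentPolynomial κ)) p
    rw [← h1, CharP.cast_eq_zero, map_zero]
  have hw0 : (neg κ E.w) ^ p - neg κ E.w = (A0 κ).subtype (f0A κ) := by
    have h1 := congrArg (neg κ) E.hw
    rw [map_sub, map_pow, neg_tX] at h1
    exact h1
  have hw1 : (pos κ E.w) ^ p - pos κ E.w = (A1 κ).subtype (f1A κ) := by
    have h1 := congrArg (pos κ) E.hw
    rw [map_sub, map_pow, pos_tX] at h1
    exact h1
  obtain ⟨C0, hk0, hb0⟩ := exists_GDx x hx h0 (A0 κ).subtype (f0A κ) (neg κ E.w) hw0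
  obtain ⟨C1, hk1, hb1⟩ := exists_GDx y hy h0 (A1 κ).subtype (f1A κ) (pos κ E.w) hw1
  obtain ⟨D0, hK0, hB0⟩ := C0.exists_chb (fun _ _ => rfl) (E.X.map (posA κ)) (E.Xi.map (posA κ))
    (map_mul_one (posA κ) E.X1) (map_mul_one (posA κ) E.X2)
  obtain ⟨D1, hK1, hB1⟩ := C1.exists_chb (fun _ _ => rfl) (E.Z.map (negA κ)) (E.Zi.map (negA κ))
    (map_mul_one (negA κ) E.Z1) (map_mul_one (negA κ) E.Z2)
  have hb0' : ∀ l g, D0.b l g = ∑ m, pos κ (E.X l m) * bb p x (neg κ E.w) m g := by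
    intro l g
    rw [hB0]
    refine Finset.sum_congr rfl fun m _ => ?_
    rw [hb0]
    rfl
  have hb1' : ∀ l g, D1.b l g = ∑ m, neg κ (E.Z l m) * bb p y (pos κ E.w) m g := by
    intro l g
    rw [hB1]
    refine Finset.sum_congr rfl fun m _ => ?_
    rw [hb1]
    rfl
  let P0 : GD (1 : Unit →* G) (RingHom.id (AA κ)) (1 : Unit →* (AA κ →+* AA κ)) :=
    D0.push (A0 κ).subtype (RingHom.id (AA κ)) (MonoidHom.id Unit) 1 (fun _ => rfl)
      (RingHom.id (AA κ)) 1 (fun _ => rfl) (fun _ _ => rfl)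
  let P1 : GD (1 : Unit →* G) (RingHom.id (AA κ)) (1 : Unit →* (AA κ →+* AA κ)) :=
    D1.push (A1 κ).subtype (RingHom.id (AA κ)) (MonoidHom.id Unit) 1 (fun _ => rfl)
      (RingHom.id (AA κ)) 1 (fun _ => rfl) (fun _ _ => rfl)
  have hP : P0.k = P1.k := by
    refine GD.uniq P0 P1 Function.injective_id fun l g => ?_
    change D0.b l g = D1.b l g
    rw [hb0', hb1', E.eq]
  have hP' : D0.k.map (A0 κ).subtype = D1.k.map (A1 κ).subtype := hP
  have eμ : ∀ j l m, (D0.k.μ j l m : AA κ) = D1.k.μ j l m := fun j l m =>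
    congrArg (fun k : Ks (AA κ) G => k.μ j l m) hP'
  have eα : ∀ j l m, (D0.k.α j l m : AA κ) = D1.k.α j l m := fun j l m =>
    congrArg (fun k : Ks (AA κ) G => k.α j l m) hP'
  have eν : ∀ l, (D0.k.ν l : AA κ) = D1.k.ν l := fun l =>
    congrArg (fun k : Ks (AA κ) G => k.ν l) hP'
  have eT : ∀ j l, (D0.k.T j l : AA κ) = D1.k.T j l := fun j l =>
    congrArg (fun k : Ks (AA κ) G => k.T j l) hP'
  have eT' : ∀ j l, (D0.k.T' j l : AA κ) = D1.k.T' j l := fun j l =>
    congrArg (fun k : Ks (AA κ) G => k.T' j l) hP'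
  have fi : ∀ (a : A0 κ) (b : A1 κ), (a : AA κ) = b → iK κ (inv κ a) = (A0 κ).subtype a :=
    fun a b h => iK_inv a.2 b.2 h
  have gi0 : ∀ (a : A0 κ) (b : A1 κ), (a : AA κ) = b → iA0 κ (inv κ a) = a :=
    fun a b h => Subtype.ext (iK_inv a.2 b.2 h)
  have gi1 : ∀ (a : A0 κ) (b : A1 κ), (a : AA κ) = b → iA1 κ (inv κ a) = b :=
    fun a b h => Subtype.ext ((iK_inv a.2 b.2 h).trans h)
  let k2 : Ks (LaurentPolynomial (LaurentSeries κ)) G := D0.k.map fun a : A0 κ => inv κ (a : AA κ)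
  have m0 : k2.map (iA0 κ) = D0.k :=
    Ks_ext (fun i j l => gi0 (D0.k.μ i j l) (D1.k.μ i j l) (eμ i j l))
      (fun i j l => gi0 (D0.k.α i j l) (D1.k.α i j l) (eα i j l))
      (fun i => gi0 (D0.k.ν i) (D1.k.ν i) (eν i))
      (fun i j => gi0 (D0.k.T i j) (D1.k.T i j) (eT i j))
      (fun i j => gi0 (D0.k.T' i j) (D1.k.T' i j) (eT' i j))
  have m1 : k2.map (iA1 κ) = D1.k :=
    Ks_ext (fun i j l => gi1 (D0.k.μ i j l) (D1.k.μ i j l) (eμ i j l))
      (fun i j l => gi1 (D0.k.α i j l) (D1.k.α i j l) (eα i j l))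
      (fun i => gi1 (D0.k.ν i) (D1.k.ν i) (eν i))
      (fun i j => gi1 (D0.k.T i j) (D1.k.T i j) (eT i j))
      (fun i j => gi1 (D0.k.T' i j) (D1.k.T' i j) (eT' i j))
  refine ⟨{
    b := D0.b
    k := k2
    hP := D0.hP
    hmul := fun j l g => ?_
    hact := fun h l g => ?_
    hone := fun g => ?_
    htr := fun j l => ?_
    hdual := fun g g' => ?_ }, hb0', ?_, ?_, ?_⟩
  · rw [D0.hmul]
    refine Finset.sum_congr rfl fun m _ => ?_
    rw [← fi (D0.k.μ j l m) (D1.k.μ j l m) (eμ j l m)]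
    rfl
  · rw [D0.hact]
    refine Finset.sum_congr rfl fun m _ => ?_
    rw [← fi (D0.k.α h l m) (D1.k.α h l m) (eα h l m)]
    rfl
  · rw [← D0.hone g]
    refine Finset.sum_congr rfl fun m _ => ?_
    rw [← fi (D0.k.ν m) (D1.k.ν m) (eν m)]
    rfl
  · rw [D0.htr, ← fi (D0.k.T j l) (D1.k.T j l) (eT j l)]
    rfl
  · rw [← D0.hdual g g']
    refine Finset.sum_congr rfl fun m _ => Finset.sum_congr rfl fun n _ => ?_
    rw [← fi (D0.k.T' m n) (D1.k.T' m n) (eT' m n)]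
    rfl
  · intro l g
    change D0.b l g = _
    rw [hb0', E.eq]
  · change k2.map (iA0 κ) = _
    rw [m0, hK0, hk0]
  · change k2.map (iA1 κ) = _
    rw [m1, hK1, hk1]

end

end Pool.Agent.MP_1c8e06_ag.CYH
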