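import Pool.Agent.Lib.MP_1c8e06_ag.CY.Defs
import Pool.Agent.Lib.MP_1c8e06_ag.AJ.Defs5

set_option autoImplicit false

open Polynomial LaurentPolynomial
open scoped Classical

namespace Pool.Agent.MP_1c8e06_ag.CYH

open Pool.Agent.MP_1c8e06_ag.AJ Pool.Agent.MP_1c8e06_ag.CY

noncomputable section

/-! ### Expansions of Laurent polynomials -/

section
variable {K : Type} [Field K]

theorem lz_C (c : K) : lz K (LaurentPolynomial.C c) = HahnSeries.C c :=
  LaurentPolynomial.eval₂_C _ _ _

theorem sU_zpow (n : ℤ) : ((sU K ^ n : (LaurentSeries K)ˣ) : LaurentSeries K) =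
    HahnSeries.single n (1 : K) := by
  have h : ∀ m : ℕ, ((sU K ^ m : (LaurentSeries K)ˣ) : LaurentSeries K) =
      HahnSeries.single (m : ℤ) (1 : K) := by
    intro m
    induction m with
    | zero => simp
    | succ m ih =>
      rw [pow_succ, Units.val_mul, ih]
      change HahnSeries.single (m : ℤ) (1 : K) * HahnSeries.single (1 : ℤ) (1 : K) = _
      rw [HahnSeries.single_mul_single]
      norm_num
  have h' : ∀ m : ℕ, (((sU K)⁻¹ ^ m : (LaurentSeries K)ˣ) : LaurentSeries K) =
      HahnSeries.single (-(m : ℤ)) (1 : K) := by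
    intro m
    induction m with
    | zero => simp
    | succ m ih =>
      rw [pow_succ, Units.val_mul, ih]
      change HahnSeries.single (-(m : ℤ)) (1 : K) * HahnSeries.single (-1 : ℤ) (1 : K) = _
      rw [HahnSeries.single_mul_single, mul_one, show -(m : ℤ) + -1 = -((m + 1 : ℕ) : ℤ) by
        push_cast; ring]
  obtain ⟨m, rfl | rfl⟩ := n.eq_nat_or_neg
  · rw [zpow_natCast, h]
  · rw [zpow_neg, zpow_natCast, ← inv_pow, h']

theorem lz_T (n : ℤ) : lz K (LaurentPolynomial.T n) = HahnSeries.single n (1 : K) := by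
  rw [lz, LaurentPolynomial.eval₂_T, sU_zpow]

theorem lin_C (c : K) : lin K (LaurentPolynomial.C c) = LaurentPolynomial.C c :=
  LaurentPolynomial.invert_C c

theorem lin_T (n : ℤ) : lin K (LaurentPolynomial.T n) = LaurentPolynomial.T (-n) :=
  LaurentPolynomial.invert_T n

theorem lin_lin (f : LaurentPolynomial K) : lin K (lin K f) = f :=
  LaurentPolynomial.involutive_invert f

theorem lzi_eq (f : LaurentPolynomial K) : lzi K f = lz K (lin K f) := by
  induction f using LaurentPolynomial.induction_on' with
  | add f g hf hg => rw [map_add, map_add, map_add, hf, hg]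
  | C_mul_T m c =>
    rw [map_mul, map_mul, map_mul, lin_C, lin_T, lz_C, lz_T, lzi, LaurentPolynomial.eval₂_C,
      LaurentPolynomial.eval₂_T, inv_zpow', sU_zpow]

theorem lzi_C (c : K) : lzi K (LaurentPolynomial.C c) = HahnSeries.C c := by
  rw [lzi_eq, lin_C, lz_C]

theorem lzi_T (n : ℤ) : lzi K (LaurentPolynomial.T n) = HahnSeries.single (-n) (1 : K) := by
  rw [lzi_eq, lin_T, lz_T]

theorem lz_coeff (f : LaurentPolynomial K) (n : ℤ) : (lz K f).coeff n = f.coeff n := by
  induction f using LaurentPolynomial.induction_on' with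
  | add f g hf hg => rw [map_add, HahnSeries.coeff_add, hf, hg]; rfl
  | C_mul_T m c =>
    rw [map_mul, lz_C, lz_T, HahnSeries.C_apply, HahnSeries.single_mul_single, zero_add, mul_one,
      HahnSeries.coeff_single, ← LaurentPolynomial.single_eq_C_mul_T]
    rw [AddMonoidAlgebra.coeff_single, Finsupp.single_apply]
    by_cases h : n = m
    · simp [h]
    · rw [if_neg h, if_neg (fun h1 => h h1.symm)]

theorem lzi_coeff (f : LaurentPolynomial K) (n : ℤ) : (lzi K f).coeff n = f.coeff (-n) := by
  rw [lzi_eq, lz_coeff]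
  exact LaurentPolynomial.invert_apply f n

theorem lz_injective : Function.Injective (lz K) := by
  intro f g h
  ext n
  rw [← lz_coeff, ← lz_coeff, h]

theorem lzi_injective : Function.Injective (lzi K) := by
  intro f g h
  rw [lzi_eq, lzi_eq] at h
  exact (LaurentPolynomial.involutive_invert (R := K)).injective (lz_injective h)

end

end

end Pool.Agent.MP_1c8e06_ag.CYH
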