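import Pool.Agent.Lib.MP_1c8e06_ag.CYH.HDefs
import Pool.Agent.Lib.MP_1c8e06_ag.AJ.B2

set_option autoImplicit false

open Polynomial LaurentPolynomial
open scoped Classical

namespace Pool.Agent.MP_1c8e06_ag.CYH

open Pool.Agent.MP_1c8e06_ag.AJ Pool.Agent.MP_1c8e06_ag.CY

noncomputable section

/-! ### The orthonormal permutation basis of the induced Artin-Schreier algebra -/

section
variable {p : ℕ} {G : Type} [Group G]

/-- `d(Y) = 1 - Y ^ (p - 1)`. -/
def dl (p : ℕ) {E : Type} [CommRing E] (Y : E) : E := 1 - Y ^ (p - 1)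

/-- The exponent of an element of `⟨x⟩`. -/
def ex (p : ℕ) (x z : G) : ZMod p :=
  if h : ∃ j : ZMod p, x ^ j.val = z then h.choose else 0

/-- The function `x ^ j ↦ d(w + j)`, `0` outside `⟨x⟩`. -/
def Dx (p : ℕ) {E : Type} [CommRing E] (x : G) (w : E) (z : G) : E :=
  if ∃ j : ZMod p, x ^ j.val = z then dl p (w + zc E (ex p x z)) else 0

/-- The basis functions: `bb l g` is the value of the `l`-th basis element at `g`. -/
def bb (p : ℕ) {E : Type} [CommRing E] (x : G) (w : E) (l g : G) : E := Dx p x w (g * l⁻¹)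

end

/-! ### The rings of the patching argument

`κ[T, T⁻¹]((t))`: functions on the annulus. -/

section
variable (κ : Type) [Field κ]

/-- Functions on the annulus. -/
abbrev AA : Type := LaurentSeries (LaurentPolynomial κ)

/-- Expansion of the coefficients at `T = 0`. -/
def jA0 : AA κ →+* AL κ := AI.mapL (lz κ)

/-- Expansion of the coefficients at `T = ∞`. -/
def jA1 : AA κ →+* AL κ := AI.mapL (lzi κ)

/-- The elements whose coefficients have a bounded pole at `T = 0`. -/
def A0 : Subring (AA κ) := (BL κ).comap (jA0 κ)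

/-- The elements whose coefficients have a bounded pole at `T = ∞`. -/
def A1 : Subring (AA κ) := (BL κ).comap (jA1 κ)

/-- `A0 → BL`. -/
def j0 : A0 κ →+* BL κ := ((jA0 κ).comp (A0 κ).subtype).codRestrict (BL κ) fun a => a.2

/-- `A1 → BL`. -/
def j1 : A1 κ →+* BL κ := ((jA1 κ).comp (A1 κ).subtype).codRestrict (BL κ) fun a => a.2

/-- The exchange of the two variables. -/
def sw : BL κ →+* LaurentSeries (LaurentSeries κ) := (exists_swL κ).choose

theorem sw_coeff (a : BL κ) (m n : ℤ) :
    ((sw κ a).coeff m).coeff n = ((a : AL κ).coeff n).coeff m := (exists_swL κ).choose_spec a m n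

/-- Expansion at `T = 0` over `κ((t))`. -/
def s0 : A0 κ →+* LaurentSeries (LaurentSeries κ) := (sw κ).comp (j0 κ)

/-- Expansion at `T = ∞` over `κ((t))`. -/
def s1 : A1 κ →+* LaurentSeries (LaurentSeries κ) := (sw κ).comp (j1 κ)

/-- The unit `T` of `κ[T, T⁻¹]((t))`. -/
def TU : (AA κ)ˣ where
  val := HahnSeries.C (LaurentPolynomial.T 1)
  inv := HahnSeries.C (LaurentPolynomial.T (-1))
  val_inv := by
    rw [← map_mul, ← LaurentPolynomial.T_add]
    norm_num
  inv_val := by
    rw [← map_mul, ← LaurentPolynomial.T_add]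
    norm_num

/-- `κ((t))[T, T⁻¹] → κ[T, T⁻¹]((t))`. -/
def iK : LaurentPolynomial (LaurentSeries κ) →+* AA κ :=
  LaurentPolynomial.eval₂ (AI.mapL (LaurentPolynomial.C : κ →+* LaurentPolynomial κ)) (TU κ)

/-- `κ[X] → κ[T, T⁻¹]`, `X ↦ T`. -/
def pT : κ[X] →+* LaurentPolynomial κ :=
  Polynomial.eval₂RingHom LaurentPolynomial.C (LaurentPolynomial.T 1)

/-- `κ[X] → κ[T, T⁻¹]`, `X ↦ T⁻¹`. -/
def nT : κ[X] →+* LaurentPolynomial κ :=
  Polynomial.eval₂RingHom LaurentPolynomial.C (LaurentPolynomial.T (-1))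

/-- Power series over `κ[X]`, `X ↦ T`: functions on the disc around `0`. -/
def pos : PowerSeries κ[X] →+* AA κ :=
  (HahnSeries.ofPowerSeries ℤ (LaurentPolynomial κ)).comp (PowerSeries.map (pT κ))

/-- Power series over `κ[X]`, `X ↦ T⁻¹`: functions on the disc around infinity. -/
def neg : PowerSeries κ[X] →+* AA κ :=
  (HahnSeries.ofPowerSeries ℤ (LaurentPolynomial κ)).comp (PowerSeries.map (nT κ))

/-- `t / T`. -/
def f0 : AA κ := HahnSeries.single (1 : ℤ) (LaurentPolynomial.T (-1))

/-- `t T`. -/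
def f1 : AA κ := HahnSeries.single (1 : ℤ) (LaurentPolynomial.T 1)

end

end

end Pool.Agent.MP_1c8e06_ag.CYH
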