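import Pool.Agent.Lib.MP_1c8e06_ag.Mg.G044
import Pool.Agent.Lib.MP_1c8e06_ag.Mg.G049

set_option autoImplicit false

open Polynomial LaurentPolynomial
open scoped Classical

namespace Pool.Agent.MP_1c8e06_ag.CYH

open Pool.Agent.MP_1c8e06_ag.AJ Pool.Agent.MP_1c8e06_ag.CY

noncomputable section

section
variable (κ : Type) [Field κ]

/-- `κ((t))[T,T⁻¹] → A0`. -/
def iA0 : LaurentPolynomial (LaurentSeries κ) →+* A0 κ := (iK κ).codRestrict (A0 κ) iK_mem0

/-- `κ((t))[T,T⁻¹] → A1`. -/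
def iA1 : LaurentPolynomial (LaurentSeries κ) →+* A1 κ := (iK κ).codRestrict (A1 κ) iK_mem1

/-- Functions on the disc around `0`. -/
def posA : PowerSeries κ[X] →+* A0 κ := (pos κ).codRestrict (A0 κ) pos_mem

/-- Functions on the disc around infinity. -/
def negA : PowerSeries κ[X] →+* A1 κ := (neg κ).codRestrict (A1 κ) neg_mem

/-- `t / T` in `A0`. -/
def f0A : A0 κ := ⟨f0 κ, f0_mem⟩

/-- `t T` in `A1`. -/
def f1A : A1 κ := ⟨f1 κ, f1_mem⟩

/-- The parameter `t` of `κ((t))`. -/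
def tK : LaurentSeries κ := HahnSeries.single (1 : ℤ) (1 : κ)

/-- The Artin-Schreier polynomial data `t X`. -/
abbrev FX : (LaurentSeries κ)[X] := Polynomial.C (tK κ) * Polynomial.X

theorem s0_iA0 (f : LaurentPolynomial (LaurentSeries κ)) :
    s0 κ (iA0 κ f) = lz (LaurentSeries κ) f := s0_iK f

theorem s1_iA1 (f : LaurentPolynomial (LaurentSeries κ)) :
    s1 κ (iA1 κ f) = lzi (LaurentSeries κ) f := s1_iK f

end

/-- The patching data: the matrices which compare the two bases over the annulus. -/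
structure PD (p : ℕ) [Fact p.Prime] (κ : Type) [Field κ] [CharP κ p] (G : Type) [Group G]
    [Fintype G] (x y : G) where
  w : PowerSeries κ[X]
  hw : w ^ p - w = PowerSeries.X * PowerSeries.C (Polynomial.X : κ[X])
  X : Matrix G G (PowerSeries κ[X])
  Xi : Matrix G G (PowerSeries κ[X])
  Z : Matrix G G (PowerSeries κ[X])
  Zi : Matrix G G (PowerSeries κ[X])
  X1 : X * Xi = 1
  X2 : Xi * X = 1
  Z1 : Z * Zi = 1
  Z2 : Zi * Z = 1
  eq : ∀ l g, ∑ m, pos κ (X l m) * bb p x (neg κ w) m g =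
    ∑ m, neg κ (Z l m) * bb p y (pos κ w) m g

end

end Pool.Agent.MP_1c8e06_ag.CYH
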